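import Pool.Agent.L0h51.RK.Sel3

/-!
# MP_c481b3_nt: doubly transitive extensions, an inequality of Bessel type and a zero-one law

`K` is a number field, `ρ` a symplectic representation of `Gal(K̄/K)` which is unramified outside a
finite set, for instance the representation on `V_ℓ(A)` for an abelian variety `A` over `K`. The rank of
an extension `E` of `K` is the number of the orbits of `Gal(K̄/K)` on the pairs of cosets of
`Gal(K̄/E)`, that is the number of the fields whose product is `E ⊗_K E`. It is at most `[E:K]`, and it
is `2` if and only if `Gal(K̄/K)` acts doubly transitively on the embeddings of `E`, for instance for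
extensions of degree `n` with group `S_n` or `A_n` (`n ≥ 4`).

(1) Without any hypothesis of Sato-Tate type: for extensions `E_i`, linearly disjoint in pairs, the
discrepancies of a class function `f` over the `E_i` differ from the discrepancy over `K`, at every large
height, in total by at most `4 sup |f|²` in mean square with the weights `1/(rank E_i - 1)`.

(2) Hence the Sato-Tate conjecture over pairwise linearly disjoint `E_i` with
`∑ 1/(rank E_i - 1) = ∞` gives it over `K`.

(3), (4) A zero-one law, without any assumption of disjointness: if for some class function the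
discrepancy over `K` is infinitely often at least `δ`, then it is infinitely often at least `δ'`, for
every `δ' < δ`, over all but finitely many of the extensions of `K` without intermediate fields and of
rank at most `r`. In particular, if the Sato-Tate conjecture fails for `ρ` over `K` then it fails over
all but finitely many of these extensions, and (5) over all but finitely many of the doubly transitive
extensions of arbitrary degrees.

(6) For example the Sato-Tate conjecture over the fields `K(θ)`, `θ ^ n = θ + 1`, for infinitely many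
`n` implies it over `K`.
-/

set_option autoImplicit false

namespace Pool.Agent.Results.MP_c481b3_nt.DoublyTransitiveExtensions

open Pool.Agent.K4H40.ST Pool.Agent.K4H53.SI Pool.Agent.L0h51.RK
open NumberField IsDedekindDomain Filter Topology MeasureTheory

theorem result (K : Type) [Field K] [NumberField K] (g : ℕ) (R : Type) [CommRing R]
    (ρ : Gal(AlgebraicClosure K/K) →* GL (Fin g ⊕ Fin g) R) (ι : R →+* ℂ)
    (hsymp : IsSymplectic ρ) (hunr : IsUnramified K (AlgebraicClosure K) ρ) :
    -- (1) comparison of the discrepancies over `K` and over the `E i`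
    (∀ (I : Type) [Fintype I] (E : I → IntermediateField K (AlgebraicClosure K))
      [∀ i, NumberField (E i)],
      (∀ i j, i ≠ j → Module.finrank K (E i ⊔ E j : IntermediateField K (AlgebraicClosure K)) =
        Module.finrank K (E i) * Module.finrank K (E j)) →
      ∀ C : Subgroup (GL (Fin g ⊕ Fin g) ℂ), IsSatoTateGroup (extend ρ ι) C →
      ∀ x : HeightOneSpectrum (𝓞 K) → C,
        IsClassSystem K (AlgebraicClosure K) (extend ρ ι) C x →
      ∃ (D : I → Subgroup (GL (Fin g ⊕ Fin g) ℂ)) (hD : ∀ i, D i ≤ C)
        (y : ∀ i, HeightOneSpectrum (𝓞 (E i)) → D i),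
        (∀ i, IsSatoTateGroup (repOver ρ ι (E i)) (D i) ∧
          IsClassSystem (E i) (AlgebraicClosure K) (repOver ρ ι (E i)) (D i) (y i)) ∧
        ∀ [MeasurableSpace C] [BorelSpace C] (μ : Measure C) [IsProbabilityMeasure μ]
          [μ.IsMulLeftInvariant]
          [∀ i, MeasurableSpace (D i)] [∀ i, BorelSpace (D i)] (ν : ∀ i, Measure (D i))
          [∀ i, IsProbabilityMeasure (ν i)] [∀ i, (ν i).IsMulLeftInvariant]
          (f : C → ℂ), Continuous f → (∀ c h, f (h * c * h⁻¹) = f c) →
        ∀ B : ℝ, (∀ c, ‖f c‖ ≤ B) → ∀ ε : ℝ, 0 < ε →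
        ∀ᶠ N in atTop, ∑ i, ‖disc (E i) (ν i) (y i) (fun d => f (Subgroup.inclusion (hD i) d)) N -
          disc K μ x f N‖ ^ 2 / ((rank (E i) : ℝ) - 1) ≤ 4 * B ^ 2 + ε) ∧
    -- (2) the descent from pairwise linearly disjoint fields
    (∀ (I : Type) (E : I → IntermediateField K (AlgebraicClosure K)),
      (∀ i, Holds ρ ι (E i)) →
      (∀ i j, i ≠ j → Module.finrank K (E i ⊔ E j : IntermediateField K (AlgebraicClosure K)) =
        Module.finrank K (E i) * Module.finrank K (E j)) →
      (¬ Summable fun i => ((rank (E i) : ℝ) - 1)⁻¹) →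
      SatoTate K (AlgebraicClosure K) (extend ρ ι)) ∧
    -- (3) large discrepancies persist
    (∀ (r : ℕ) (C : Subgroup (GL (Fin g ⊕ Fin g) ℂ)), IsSatoTateGroup (extend ρ ι) C →
      ∀ x : HeightOneSpectrum (𝓞 K) → C,
        IsClassSystem K (AlgebraicClosure K) (extend ρ ι) C x →
      ∀ [MeasurableSpace C] [BorelSpace C] (μ : Measure C) [IsProbabilityMeasure μ]
        [μ.IsMulLeftInvariant] (f : C → ℂ), Continuous f → (∀ c h, f (h * c * h⁻¹) = f c) →
      ∀ δ δ' : ℝ, δ' < δ → (∃ᶠ N in atTop, δ ≤ ‖disc K μ x f N‖) →
      {E : IntermediateField K (AlgebraicClosure K) | FiniteDimensional K E ∧ IsAtom E ∧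
        rank E ≤ r ∧ ¬ Large ρ ι C f δ' E}.Finite) ∧
    -- (4) primitive extensions of bounded rank
    (∀ r : ℕ, {E : IntermediateField K (AlgebraicClosure K) |
      IsAtom E ∧ rank E ≤ r ∧ Holds ρ ι E}.Infinite →
      SatoTate K (AlgebraicClosure K) (extend ρ ι)) ∧
    -- (5) doubly transitive extensions
    ({E : IntermediateField K (AlgebraicClosure K) | rank E = 2 ∧ Holds ρ ι E}.Infinite →
      SatoTate K (AlgebraicClosure K) (extend ρ ι)) ∧
    -- (6) the fields generated by the roots of `X ^ n - X - 1`
    (∀ n : ℕ, 5 ≤ n → Module.finrank ℚ K < n → ∀ θ : AlgebraicClosure K, θ ^ n = θ + 1 →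
      Module.finrank K (IntermediateField.adjoin K {θ}) = n ∧
        rank (IntermediateField.adjoin K {θ}) = 2) ∧
    ({n : ℕ | ∃ θ : AlgebraicClosure K, θ ^ n = θ + 1 ∧
      Holds ρ ι (IntermediateField.adjoin K {θ})}.Infinite →
      SatoTate K (AlgebraicClosure K) (extend ρ ι)) := by
  refine ⟨?_, fun I E hE hdis hsum => descent_sum ρ ι hsymp hunr E hE hdis hsum, ?_,
    fun r hinf => descent_primitive ρ ι hsymp hunr r hinf, ?_, fun n hn hd θ hθ =>
      sel_rank K n hn hd θ hθ, fun hinf => descent_sel K ρ ι hsymp hunr hinf⟩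
  · intro I _ E _ hdis C hC x hx
    exact comparison_w ρ ι hsymp hunr E hdis C hC x hx
  · intro r C hC x hx _ _ μ _ _ f hf hcl δ δ' hδ hfr
    exact zero_one ρ ι hsymp hunr r C hC x hx μ f hf hcl δ δ' hδ hfr
  · intro hinf
    refine descent_primitive ρ ι hsymp hunr 2 (hinf.mono ?_)
    rintro E ⟨h1, h2⟩
    exact ⟨atom_of_rank_two E h1, h1.le, h2⟩

end Pool.Agent.Results.MP_c481b3_nt.DoublyTransitiveExtensions
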