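import Pool.Agent.L0h51.EX.Cor

/-!
# MP_c481b3_nt: arbitrary families of extension fields, an exact criterion

`K` is a number field and `S` an arbitrary set of finite extensions of `K` in `K̄`, not assumed to be
closed under extensions. `deg1 E v` is the number of the primes of `E` above the prime `v` of `K` with the
same number of residue classes.

(1) The following are equivalent: the constant function `1` on the primes of `K` is in the closure of the
real span of the functions `deg1 E`, `E ∈ S`, for the upper mean of the absolute value
(`Approximates`); and every bounded function on the primes of `K` whose means over the primes of `E`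
tend to zero for all `E ∈ S` has means over the primes of `K` which tend to zero (`Transfers`).

(2) In this case, for every symplectic representation `ρ` of `Gal(K̄/K)` which is unramified outside a
finite set, for instance on `V_ℓ(A)` for an abelian variety `A` over `K`, the Sato-Tate conjecture over
all fields in `S` implies the Sato-Tate conjecture over `K`.

(3) is the quantitative form: if it holds over the fields in the finite set `T`, then for all real
numbers `c_E` the discrepancy over `K` of a class function `f` at the height `N` is at most
`2 sup |f|` times the mean of `|∑ c_E deg1 E v - 1|` over the `v` with `N(v) ≤ N`, up to `o(1)`.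

(4) It is enough that `S` contains for every `ε > 0` one field in which all primes of `K` outside of a
set of upper density at most `ε` have a prime factor of degree one. (5) For example, the Sato-Tate
conjecture for `ρ` over `K` follows from the Sato-Tate conjecture over the fields `K(z)`, `z ^ q = a`, for
a single `a ∈ K` and infinitely many primes `q`.

The necessity in (1) is proved with the Hahn-Banach theorem for the class functions on the finite
quotients of `Gal(K̄/K)` and by gluing test functions along a sparse sequence of norms.
-/

set_option autoImplicit false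

namespace Pool.Agent.Results.MP_c481b3_nt.ExactCriterion

open Pool.Agent.K4H40.ST Pool.Agent.K4H53.SI Pool.Agent.L0h51.CV Pool.Agent.L0h51.EX
open NumberField IsDedekindDomain Filter Topology MeasureTheory

theorem result (K : Type) [Field K] [NumberField K] :
    -- (1) the equivalence
    (∀ S : Set (IntermediateField K (AlgebraicClosure K)), (∀ E ∈ S, FiniteDimensional K E) →
      (Approximates S ↔ Transfers S)) ∧
    -- (4) single fields which see almost all primes
    (∀ S : Set (IntermediateField K (AlgebraicClosure K)), (∀ E ∈ S, FiniteDimensional K E) →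
      (∀ ε : ℝ, 0 < ε → ∃ E ∈ S, ∀ᶠ N : ℕ in atTop,
        (cnt (fun v : HeightOneSpectrum (𝓞 K) => ¬ Seen E v) N : ℝ) ≤
          ε * (cnt (fun _ : HeightOneSpectrum (𝓞 K) => True) N : ℝ)) → Approximates S) ∧
    ∀ (g : ℕ) (R : Type) [CommRing R]
      (ρ : Gal(AlgebraicClosure K/K) →* GL (Fin g ⊕ Fin g) R) (ι : R →+* ℂ),
      IsSymplectic ρ → IsUnramified K (AlgebraicClosure K) ρ →
    -- (2) the Sato-Tate conjecture
    (∀ S : Set (IntermediateField K (AlgebraicClosure K)), Approximates S →
      (∀ E ∈ S, Holds ρ ι E) → SatoTate K (AlgebraicClosure K) (extend ρ ι)) ∧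
    -- (3) the quantitative form
    (∀ (T : Finset (IntermediateField K (AlgebraicClosure K)))
      (c : IntermediateField K (AlgebraicClosure K) → ℝ), (∀ E ∈ T, Holds ρ ι E) →
      ∀ C : Subgroup (GL (Fin g ⊕ Fin g) ℂ), IsSatoTateGroup (extend ρ ι) C →
      ∀ x : HeightOneSpectrum (𝓞 K) → C,
        IsClassSystem K (AlgebraicClosure K) (extend ρ ι) C x →
      ∀ [MeasurableSpace C] [BorelSpace C] (μ : Measure C) [IsProbabilityMeasure μ]
        [μ.IsMulLeftInvariant] (f : C → ℂ), Continuous f → (∀ c h, f (h * c * h⁻¹) = f c) →
      ∀ B : ℝ, (∀ c, ‖f c‖ ≤ B) → ∀ ε : ℝ, 0 < ε →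
      ∀ᶠ N in atTop, ‖avg K (fun v => f (x v)) N - ∫ c, f c ∂μ‖ ≤ 2 * B * err T c N + ε) ∧
    -- (5) radicals
    (∀ (a : K) (P : Set ℕ), P.Infinite → (∀ q ∈ P, q.Prime) →
      (∀ q ∈ P, ∀ z : AlgebraicClosure K, z ^ q = algebraMap K (AlgebraicClosure K) a →
        Holds ρ ι (IntermediateField.adjoin K {z})) →
      SatoTate K (AlgebraicClosure K) (extend ρ ι)) := by
  refine ⟨fun S hS => ⟨transfers_of_approx S hS, approx_of_transfers S hS⟩,
    fun S hS h => approx_single S hS h, ?_⟩
  intro g R _ ρ ι hsymp hunr
  refine ⟨fun S h hyp => base_of_approx ρ ι hsymp hunr S h hyp, ?_, ?_⟩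
  · intro T c hyp C hC x hx _ _ μ _ _ f hf hcl B hB ε hε
    exact quant ρ ι hsymp hunr T c hyp C hC x hx μ f hf hcl B hB ε hε
  · intro a P hP hPp hyp
    refine base_of_approx ρ ι hsymp hunr _ (approx_radical a P hP hPp) ?_
    rintro _ ⟨q, hq, z, hz, rfl⟩
    exact hyp q hq z hz

end Pool.Agent.Results.MP_c481b3_nt.ExactCriterion
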